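import Pool.Graph.R_seed8.R887.BezB
import Pool.Graph.R_seed8.R887.Exc
import Pool.Graph.R_pool_sql_team_seeded_b0a926ef.R887.DefsLK
import Pool.Graph.R_pool_sql_team_seeded_63374d34.N110.NV.Fin
import Pool.Graph.R_pool_sql_team_seeded_63374d34.N110.NV.Psef

/-!
# Weak abundance for pairs of irregularity zero with multi-valued maps from pairs of small degree

Let `(X, Δ)` be a projective pair (for instance log canonical) of dimension `n ≥ 1` and of irregularity
zero, with hyperplane class `H`.  Suppose that for every `ε > 0` there are a projective pair `(X', Δ')`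
of dimension `n`, of positive degree `⟨K_X' + Δ'⟩ · H' ^ (n - 1) ≤ μ`, and a multi-valued map
`X' ← X'' → X` (`p` generically finite, ramified anywhere, `f` dominant) with
`f^* (K_X + Δ) ≤ p^* (K_X' + Δ')` over the prime divisors of `X'` and
`(f^* H) ^ (n - 1) · p^* H' ≤ c deg f`, such that `c μ ≤ ε`.  Then `κ (K_X + Δ) = ν (K_X + Δ)`: both are
`-∞` or both are `0`.  Nothing is assumed about the effectivity, the pseudo-effectivity or the nefness of
`K_X + Δ`.

Examples.

* `(X', Δ') = (X, Δ)`, `p = id` and `f` the iterates of one dominant rational self-map `g` of `X`,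
  invertible or not, with `g^* (K_X + Δ) ≤ K_X + Δ`: the condition is `λ_(n-1) (g) < λ_n (g) = deg g`, the
  topological degree is larger than the last but one dynamical degree.
* One pair `(X', Δ')` with `ν (K_X' + Δ') ≤ 0` (then `μ = 0`), of any irregularity: all pairs of
  irregularity zero which are dominated by it, or are in correspondence with it.

Proof: the degree inequality for multi-valued maps shows that the numerical dimension is at most zero;
nonvanishing for numerical dimension zero and irregularity zero gives a section if `K_X + Δ` is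
pseudo-effective.
-/

set_option autoImplicit false

open FF Pool.Agent.W602.GT Pool.Agent.Y172 Pool.Agent.R887 Pool.Agent.N110

/-- Let `(X, Δ)` be a projective pair of dimension `n ≥ 1` and of irregularity zero, with generic point
`y`, `Δ ≥ 0` (for instance a log canonical pair). Suppose that for all `ε > 0` there are a projective
pair `(X', Δ')` of dimension `n`, with generic point `y'`, a multi-valued map `X' ← X'' → X`, that is a
variety `X''` with a generically finite rational map `p` to `X'` (given by `ψ`) and a dominant rational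
map `f` to `X` (given by `φ`), such that `f^* (K_X + Δ) ≤ p^* (K_X' + Δ')` over the prime divisors of
`X'`, and numbers `μ`, `c` such that the positive degree `⟨K_X' + Δ'⟩ · H' ^ (n - 1)` is at most `μ`,
the intersection number `(f ^* H) ^ (n - 1) · (p ^* H')` is at most `c deg f`, and `c μ ≤ ε`. Then the
Kodaira dimension and the numerical dimension of `K_X + Δ` are equal: both are `-∞` or both are
`0`. -/
theorem Pool.Agent.Results.MP_2c56d9_ag.SourcesIrregularityZero.result
    {K : Type} [Field K] [Algebra ℂ K] {N n : ℕ} {y : Fin (N + 1) → K} (hy : NormalModel y)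
    (hn : Algebra.trdeg ℂ K = n) (hn0 : 0 < n) {Δ : Place ℂ K → ℚ} (hΔ : Effective y Δ)
    (hq : IrregularityZero y)
    (h : ∀ ε : ℝ, 0 < ε → ∃ (K' L : Type) (_ : Field K') (_ : Algebra ℂ K') (_ : Field L)
      (_ : Algebra ℂ L) (N' : ℕ) (y' : Fin (N' + 1) → K') (Δ' : Place ℂ K' → ℚ)
      (φ : K →ₐ[ℂ] L) (ψ : K' →ₐ[ℂ] L) (μ c : ℝ), NormalModel y' ∧ Algebra.trdeg ℂ K' = n ∧
      {P | IsPrimeDivisor y' P ∧ Δ' P ≠ 0}.Finite ∧ 0 ≤ μ ∧ PositiveProductLe y' n Δ' 1 μ ∧
      FiniteDimensional ψ.fieldRange L ∧ LogPullBackLe φ ψ y n Δ y' Δ' ∧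
      MultiDegreeLe φ ψ y y' (n - 1) 1 c ∧ c * μ ≤ ε) :
    (kodairaDim y n Δ = ⊥ ∧ ∀ A, Effective y A → numericalDim y n Δ A = ⊥) ∨
      (kodairaDim y n Δ = ((0 : ℕ) : WithBot ℕ) ∧
        ∀ A, Effective y A → Integral y A → numericalDim y n Δ A = ((0 : ℕ) : EReal)) := by
  by_cases hpsef : LogPsef y n Δ
  · right
    have key : NumDimLt y n Δ 1 := by
      refine PositiveProductLe.numDimLt (PositiveProductLe.of_forall fun ε hε => ?_)
      obtain ⟨K', L, _, _, _, _, N', y', Δ', φ, ψ, μ, c, hy', hn', hΔ', hμ, hpp, hψ, hlog, hc,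
        hcε⟩ := h ε hε
      exact ⟨_, by rw [← pow_one μ] at hcε; linarith,
        (orb_degree_le hy' hn' hn0 hΔ' hμ hpp hy hn φ ψ hψ hlog hn0 hc).2⟩
    obtain ⟨m, hm, ω, hω0, hω⟩ := NV.nonvanishing hy hn hn0 hΔ.2 hpsef key hq
    exact abundance_zero hy hn hn0 hΔ key hm hω hω0
  · exact Or.inl (NV.not_psef hy hn hpsef)
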